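import Pool.Agent.Helper70.ML.St

/-!
Module A5 of project ML: the alternating group of degree five.
-/

set_option autoImplicit false

namespace Pool.Agent.Helper71.ML

open Pool.Agent.Helper70.ML Pool.Agent.Helper75 Pool.Agent.Helper75.MX
open Finset

section general

variable {G : Type} [Group G]

open scoped Classical in
/-- indicator of a point -/
noncomputable def pt (g x : G) : ℝ := if x = g then 1 else 0

theorem L_dlt (g : G) : L g (dlt G) = pt g := by
  classical
  funext x
  simp only [L, dlt, pt]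
  by_cases h : x = g
  · subst h; simp
  · rw [if_neg, if_neg h]
    intro h1
    exact h (inv_mul_eq_one.1 h1).symm

theorem L_pt (g h : G) : L g (pt h) = pt (g * h) := by
  rw [← L_dlt, ← MX.L_mul, L_dlt]

/-- the enumeration of the group by the six cosets -/
def Psi (r s w : G) : Option (Fin 5) × (Fin 5 × Fin 2) → G
  | (none, (i, b)) => r ^ (i : ℕ) * s ^ (b : ℕ)
  | (some j, (i, b)) => r ^ (j : ℕ) * w * (r ^ (i : ℕ) * s ^ (b : ℕ))

theorem mix_of_Psi [Finite G] (r s w : G) (hr : r ^ 5 = 1) (hs : s * s = 1)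
    (hsr : s * r * s⁻¹ = r⁻¹) (hsw : s * w = w * s) (hcard : Nat.card G = 60)
    (hinj : Function.Injective (Psi r s w)) : Mix G 8 := by
  classical
  have : Fintype G := Fintype.ofFinite G
  have : Fact (Nat.Prime 5) := ⟨by norm_num⟩
  have hc5 : cost 5 = 3 := by decide
  -- step 1
  set f1 : G → ℝ := lz s (1 / 2) (dlt G) with hf1
  have r1 : Reach 1 (dlt G) f1 := Reach.step (by norm_num) (by norm_num) _
  have e1 : f1 = (1 / 2 : ℝ) • (pt 1 + pt s) := by
    rw [hf1, lz_half, L_dlt, ← L_dlt 1, L_one]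
  have s1 : L s f1 = f1 := by
    rw [e1, L_smul, L_add, L_pt, L_pt, mul_one, hs, add_comm]
  set f2 : G → ℝ := av r 5 f1 with hf2
  have r2 : Reach 3 f1 f2 := by
    have h := reach_av hr hsr s1
    rw [hc5] at h
    exact h
  have s2r : L r f2 = f2 := self_mem_stab_av hr f1
  have s2s : L s f2 = f2 := by
    have h := av_L hr hsr f1
    rw [s1] at h
    exact h.symm
  set f3 : G → ℝ := lz w (5 / 6) f2 with hf3
  have r3 : Reach 1 f2 f3 := Reach.step (by norm_num) (by norm_num) _
  have s3 : L s f3 = f3 := by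
    rw [hf3]
    unfold lz
    rw [L_add, L_smul, L_smul, s2s, ← MX.L_mul, hsw, MX.L_mul, s2s]
  set f4 : G → ℝ := av r 5 f3 with hf4
  have r4 : Reach 3 f3 f4 := by
    have h := reach_av hr hsr s3
    rw [hc5] at h
    exact h
  have hbij : Function.Bijective (Psi r s w) := by
    rw [Fintype.bijective_iff_injective_and_card]
    refine ⟨hinj, ?_⟩
    rw [← Nat.card_eq_fintype_card (α := G), hcard]
    rfl
  -- formula for f2
  have e2 : f2 = (1 / 10 : ℝ) • ∑ i : Fin 5, ∑ b : Fin 2, pt (r ^ (i : ℕ) * s ^ (b : ℕ)) := by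
    rw [hf2, e1]
    unfold av
    rw [Finset.sum_range]
    simp only [L_smul, L_add, L_pt, Fin.sum_univ_two, Fin.val_zero, Fin.val_one, pow_zero, pow_one,
      mul_one]
    rw [← Finset.smul_sum, smul_smul]
    norm_num
  have hrj : ∀ j : ℕ, L (r ^ j) f2 = f2 := by
    intro j
    induction j with
    | zero => rw [pow_zero, L_one]
    | succ j ih => rw [pow_succ, MX.L_mul, s2r, ih]
  have e4 : f4 = (1 / 6 : ℝ) • f2 + (1 / 6 : ℝ) • ∑ j : Fin 5, L (r ^ (j : ℕ) * w) f2 := by
    rw [hf4, hf3]
    unfold av lz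
    rw [Finset.sum_range]
    simp only [L_smul, L_add, hrj, ← MX.L_mul]
    rw [Finset.sum_add_distrib, Finset.sum_const, ← Finset.smul_sum, Finset.card_univ,
      Fintype.card_fin, smul_add, smul_smul]
    congr 1
    · rw [← Nat.cast_smul_eq_nsmul ℝ, smul_smul, smul_smul]
      norm_num
    · norm_num
  have e5 : f4 = (1 / 60 : ℝ) • ∑ a : Option (Fin 5) × (Fin 5 × Fin 2), pt (Psi r s w a) := by
    rw [e4, e2, Fintype.sum_prod_type, Fintype.sum_option]
    simp only [Fintype.sum_prod_type, Psi, L_smul, L_sum, L_pt]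
    rw [← Finset.smul_sum, smul_smul, smul_smul, smul_add]
    norm_num
  have e6 : f4 = uni G := by
    rw [e5]
    funext x
    simp only [Pi.smul_apply, Finset.sum_apply, smul_eq_mul, uni, hcard]
    obtain ⟨a, ha⟩ := hbij.2 x
    rw [Finset.sum_eq_single a]
    · simp [pt, ha]
    · intro b _ hb
      unfold pt
      rw [if_neg]
      intro h
      exact hb (hinj (by rw [ha, ← h]))
    · intro h; exact absurd (Finset.mem_univ _) h
  have h := ((r1.trans r2).trans r3).trans r4
  rw [e6] at h
  exact h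

end general

/-- the 5-cycle -/
def r5 : alternatingGroup (Fin 5) := ⟨finRotate 5, Equiv.Perm.mem_alternatingGroup.2 (by decide)⟩

/-- an involution inverting the 5-cycle -/
def s5 : alternatingGroup (Fin 5) :=
  ⟨Equiv.swap 1 4 * Equiv.swap 2 3, Equiv.Perm.mem_alternatingGroup.2 (by decide)⟩

/-- an involution commuting with `s5` -/
def w5 : alternatingGroup (Fin 5) :=
  ⟨Equiv.swap 1 2 * Equiv.swap 3 4, Equiv.Perm.mem_alternatingGroup.2 (by decide)⟩

theorem inj5 : Function.Injective (Psi r5 s5 w5) := by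
  decide +kernel

theorem hA5 : StA5 := by
  refine ⟨8, mix_of_Psi r5 s5 w5 (by decide +kernel) (by decide +kernel) (by decide +kernel)
    (by decide +kernel) ?_ inj5, by norm_num⟩
  rw [nat_card_alternatingGroup]
  simp
  decide

end Pool.Agent.Helper71.ML
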