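import Pool.Agent.Helper70.ML.St3

/-! Project ML (MP_a2f62e_al), module PCAN: canonical lifts. -/

set_option autoImplicit false

namespace Pool.Agent.Helper71.ML

open Pool.Agent.Helper70.ML Pool.Agent.Helper75.MX

section lifts

variable {E H : Type} [Group E] [Group H] (φ : E →* H)

private theorem ker_comm (hker : φ.ker ≤ Subgroup.center E) {z : E} (hz : z ∈ φ.ker) (x : E) :
    x * z = z * x := Subgroup.mem_center_iff.mp (hker hz) x

private theorem u1 (hker : φ.ker ≤ Subgroup.center E) (h4 : ∀ z ∈ φ.ker, z * z = 1 → z = 1)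
    (y y' T : E) (h : φ y = φ y') (h1 : T * y * T⁻¹ = y⁻¹) (h2 : T * y' * T⁻¹ = y'⁻¹) : y = y' := by
  obtain ⟨z, hz⟩ : ∃ z, z = y⁻¹ * y' := ⟨_, rfl⟩
  have hzk : z ∈ φ.ker := by
    rw [MonoidHom.mem_ker, hz, map_mul, map_inv, h]; group
  have hy' : y' = y * z := by rw [hz]; group
  have hc := ker_comm φ hker hzk
  have e1 : T * y' * T⁻¹ = y⁻¹ * z := by
    rw [hy', ← h1]
    calc T * (y * z) * T⁻¹ = T * y * (z * T⁻¹) := by group
      _ = T * y * (T⁻¹ * z) := by rw [hc T⁻¹]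
      _ = T * y * T⁻¹ * z := by group
  have e2 : y⁻¹ * z = z⁻¹ * y⁻¹ := by
    rw [← e1, h2, hy']; group
  have e3 : z * z = 1 := by
    have := hc y⁻¹
    rw [this] at e2
    have h5 : z = z⁻¹ := mul_right_cancel e2
    nth_rewrite 1 [h5]
    group
  have := h4 z hzk e3
  rw [hy', this, mul_one]

private theorem u2 (hker : φ.ker ≤ Subgroup.center E) (h4 : ∀ z ∈ φ.ker, z * z = 1 → z = 1)
    (y T T' : E) (hT' : T' * T' = 1) (hcom : φ T * φ T' = φ T' * φ T)
    (h1 : T * y * T⁻¹ = y⁻¹) (h2 : φ (T' * y * T'⁻¹) = φ y⁻¹) : T' * y * T'⁻¹ = y⁻¹ := by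
  -- first the two involutions commute
  have hTT : T * T' = T' * T := by
    obtain ⟨z, hz⟩ : ∃ z, z = T * T' * T⁻¹ * T'⁻¹ := ⟨_, rfl⟩
    have hzk : z ∈ φ.ker := by
      rw [MonoidHom.mem_ker, hz, map_mul, map_mul, map_mul, map_inv, map_inv, hcom]; group
    have hc := ker_comm φ hker hzk
    have e1 : T * T' * T⁻¹ = z * T' := by rw [hz]; group
    have e2 : (T * T' * T⁻¹) * (T * T' * T⁻¹) = 1 := by
      calc (T * T' * T⁻¹) * (T * T' * T⁻¹) = T * (T' * T') * T⁻¹ := by group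
        _ = 1 := by rw [hT']; group
    have e3 : z * z = 1 := by
      rw [e1] at e2
      have : z * T' * (z * T') = z * z * (T' * T') := by
        calc z * T' * (z * T') = z * (T' * z) * T' := by group
          _ = z * (z * T') * T' := by rw [hc T']
          _ = z * z * (T' * T') := by group
      rw [this, hT', mul_one] at e2
      exact e2
    have := h4 z hzk e3
    rw [this, one_mul] at e1
    calc T * T' = T * T' * T⁻¹ * T := by group
      _ = T' * T := by rw [e1]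
  obtain ⟨z, hz⟩ : ∃ z, z = y * (T' * y * T'⁻¹) := ⟨_, rfl⟩
  have hzk : z ∈ φ.ker := by
    rw [MonoidHom.mem_ker, hz, map_mul, h2, map_inv]; group
  have hc := ker_comm φ hker hzk
  have e1 : T' * y * T'⁻¹ = y⁻¹ * z := by rw [hz]; group
  -- conjugate by T
  have e2 : T * (T' * y * T'⁻¹) * T⁻¹ = y * z := by
    rw [e1]
    calc T * (y⁻¹ * z) * T⁻¹ = T * y⁻¹ * (z * T⁻¹) := by group
      _ = T * y⁻¹ * (T⁻¹ * z) := by rw [hc T⁻¹]
      _ = (T * y * T⁻¹)⁻¹ * z := by group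
      _ = y * z := by rw [h1, inv_inv]
  have e3 : T * (T' * y * T'⁻¹) * T⁻¹ = y * z⁻¹ := by
    calc T * (T' * y * T'⁻¹) * T⁻¹ = (T * T') * y * (T * T')⁻¹ := by group
      _ = (T' * T) * y * (T' * T)⁻¹ := by rw [hTT]
      _ = T' * (T * y * T⁻¹) * T'⁻¹ := by group
      _ = (T' * y * T'⁻¹)⁻¹ := by rw [h1]; group
      _ = (y⁻¹ * z)⁻¹ := by rw [e1]
      _ = z⁻¹ * y := by group
      _ = y * z⁻¹ := by
        have := hc y
        calc z⁻¹ * y = z⁻¹ * (y * z) * z⁻¹ := by group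
          _ = z⁻¹ * (z * y) * z⁻¹ := by rw [this]
          _ = y * z⁻¹ := by group
  have e4 : z = z⁻¹ := mul_left_cancel (e2.symm.trans e3)
  have e5 : z * z = 1 := by nth_rewrite 1 [e4]; group
  rw [e1, h4 z hzk e5, mul_one]

end lifts

private theorem exists_third {n : ℕ} (hn : 3 ≤ n) (i j : Fin n) : ∃ m : Fin n, m ≠ i ∧ m ≠ j := by
  by_contra h
  push Not at h
  have h1 : (Finset.univ : Finset (Fin n)) ⊆ {i, j} := by
    intro m _
    by_cases hm : m = i
    · simp [hm]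
    · simp [h m hm]
  have h2 := Finset.card_le_card h1
  rw [Finset.card_univ, Fintype.card_fin] at h2
  have h3 : ({i, j} : Finset (Fin n)).card ≤ 2 := Finset.card_le_two
  omega

private theorem prod_sign {n : ℕ} {F : Type} [Field F] (p q : Fin n) (h : p ≠ q) :
    ∏ k : Fin n, (if k = p ∨ k = q then (-1 : F) else 1) = 1 := by
  rw [Finset.prod_ite, Finset.prod_const_one, mul_one, Finset.prod_const]
  have : (Finset.univ.filter fun k : Fin n => k = p ∨ k = q) = {p, q} := by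
    ext k; simp
  rw [this, Finset.card_pair h]
  norm_num

theorem hPCAN (hPMON : StPMON) (hPTVR : StPTVR) (hLIF : StLIF) : StPCAN := by
  intro n F _ _ E _ _ φ hn hce
  obtain ⟨hsurj, hker, hodd⟩ := hce
  obtain ⟨m1, m2, m3, m4, m5, m6, -, -⟩ := hPMON n F
  obtain ⟨-, -, -, t4, -⟩ := hPTVR n F
  obtain ⟨l1, l2, -, l4⟩ := hLIF E (SLn n F) φ hsurj hker hodd
  have mext : ∀ (g h : SLn n F) (τ : Equiv.Perm (Fin n)) (c : Fin n → F), Mono g τ c → Mono h τ c → g = h := by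
    intro g h τ c hg hh
    ext i j
    rw [hg.2 i j, hh.2 i j]
  have mcom : ∀ (g h : SLn n F) (c d : Fin n → F), Mono g 1 c → Mono h 1 d → g * h = h * g := by
    intro g h c d hg hh
    have a1 := m1 g h 1 1 c d hg hh
    have a2 := m1 h g 1 1 d c hh hg
    refine mext _ _ _ _ a1 ?_
    have : (fun j => c ((1 : Equiv.Perm (Fin n)) j) * d j) = fun j => d ((1 : Equiv.Perm (Fin n)) j) * c j := by
      funext j; simp [mul_comm]
    rw [this]; exact a2
  -- the involutions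
  have hD : ∀ i j : Fin n, i ≠ j → ∃ D : E, D * D = 1 ∧ ∃ c : Fin n → F, Mono (φ D) 1 c ∧ c i = -1 ∧ c j = 1 := by
    intro i j hij
    obtain ⟨m, hmi, hmj⟩ := exists_third hn i j
    obtain ⟨s, hs⟩ := m6 (fun k => if k = i ∨ k = m then (-1 : F) else 1) (prod_sign i m (Ne.symm hmi))
    have hss : s * s = 1 := by
      have a1 := m1 s s 1 1 _ _ hs hs
      refine mext _ _ _ _ a1 ?_
      have : (fun j => (if (1 : Equiv.Perm (Fin n)) j = i ∨ (1 : Equiv.Perm (Fin n)) j = m then (-1 : F) else 1) *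
          (if j = i ∨ j = m then (-1 : F) else 1)) = fun _ => (1 : F) := by
        funext j
        by_cases hj : j = i ∨ j = m
        · simp [hj]
        · simp [hj]
      rw [this, mul_one]
      exact m5
    obtain ⟨T, hT, hTT⟩ := l1 s hss
    refine ⟨T, hTT, _, hT ▸ hs, ?_, ?_⟩
    · simp
    · have : ¬ (j = i ∨ j = m) := by
        rintro (h | h)
        · exact hij h.symm
        · exact hmj h.symm
      simp [this]
  choose! D hDD cD hDm hDi hDj using hD
  have hneg : ∀ (i j : Fin n) (b : F), i ≠ j → ∀ (g : SLn n F) (c : Fin n → F), Mono g 1 c → c i = -1 → c j = 1 →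
      g * tv i j b * g⁻¹ = (tv i j b)⁻¹ := by
    intro i j b hij g c hg hi hj
    rw [m3 g 1 c hg i j b hij, t4 i j b hij, hi, hj]
    simp
  have hX : ∀ (i j : Fin n) (a : F), i ≠ j → ∃ x : E, φ x = tv i j a ∧ D i j * x * (D i j)⁻¹ = x⁻¹ := by
    intro i j a hij
    obtain ⟨x, hx⟩ := hsurj (tv i j a)
    have h1 : φ (D i j) * φ x * (φ (D i j))⁻¹ = (φ x)⁻¹ := by
      rw [hx]
      exact hneg i j a hij _ _ (hDm i j hij) (hDi i j hij) (hDj i j hij)
    obtain ⟨w, hw, hxw⟩ := l2 x (D i j) (hDD i j hij) h1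
    refine ⟨x * w, ?_, hxw⟩
    rw [map_mul, MonoidHom.mem_ker.mp hw, mul_one, hx]
  choose! X hXm hXi using hX
  refine ⟨X, ⟨hsurj, hker, hodd⟩, hXm, ?_, ?_⟩
  · intro i j a hij
    refine u1 φ hker l4 _ _ (D i j) ?_ (hXi i j (-a) hij) ?_
    · rw [map_inv, hXm i j a hij, hXm i j (-a) hij, t4 i j a hij]
    · have := hXi i j a hij
      calc D i j * (X i j a)⁻¹ * (D i j)⁻¹ = (D i j * X i j a * (D i j)⁻¹)⁻¹ := by group
        _ = (X i j a)⁻¹⁻¹ := by rw [this]
  · intro g σ c hg i j a hij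
    have hσ : σ i ≠ σ j := fun h => hij (σ.injective h)
    obtain ⟨b, hb⟩ : ∃ b, b = c i * (c j)⁻¹ * a := ⟨_, rfl⟩
    rw [← hb]
    have hphi : φ (g * X i j a * g⁻¹) = tv (σ i) (σ j) b := by
      rw [map_mul, map_mul, map_inv, hXm i j a hij, m3 _ _ _ hg i j a hij, hb]
    refine u1 φ hker l4 _ _ (D (σ i) (σ j)) ?_ ?_ (hXi (σ i) (σ j) b hσ)
    · rw [hphi, hXm (σ i) (σ j) b hσ]
    · refine u2 φ hker l4 _ (g * D i j * g⁻¹) (D (σ i) (σ j)) (hDD _ _ hσ) ?_ ?_ ?_
      · have a1 := m1 _ _ _ _ _ _ hg (hDm i j hij)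
        have a2 := m2 _ _ _ hg
        have a3 := m1 _ _ _ _ _ _ a1 a2
        have a4 : σ * 1 * σ⁻¹ = 1 := by group
        rw [a4] at a3
        have a5 : φ (g * D i j * g⁻¹) = φ g * φ (D i j) * (φ g)⁻¹ := by
          rw [map_mul, map_mul, map_inv]
        rw [a5]
        exact mcom _ _ _ _ a3 (hDm _ _ hσ)
      · have := hXi i j a hij
        calc g * D i j * g⁻¹ * (g * X i j a * g⁻¹) * (g * D i j * g⁻¹)⁻¹
            = g * (D i j * X i j a * (D i j)⁻¹) * g⁻¹ := by group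
          _ = g * (X i j a)⁻¹ * g⁻¹ := by rw [this]
          _ = (g * X i j a * g⁻¹)⁻¹ := by group
      · rw [map_mul, map_mul, map_inv, map_inv, hphi]
        exact hneg (σ i) (σ j) b hσ _ _ (hDm _ _ hσ) (hDi _ _ hσ) (hDj _ _ hσ)

end Pool.Agent.Helper71.ML
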